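import Pool.Agent.Helper73.DC.St5

set_option autoImplicit false

/-! Project DC (helper73), MP_26f0da_lc: module P0, the program is well-formed. -/

namespace Pool.Agent.Helper38.DC

open Pool.Agent.Helper73.DC
open Finset
open scoped Classical

/-- Well-formed commands with 40 variables. -/
@[irreducible] def Ok {α : Type} [Fintype α] (c : Cmd α) : Prop := c.ok 40

/-- E2 predicates. -/
@[irreducible] def Pr {α : Type} [Fintype α] (p : List α → (ℕ → ℕ) → Prop) : Prop := E2P p

theorem Ok_iff {α : Type} [Fintype α] (c : Cmd α) : Ok c ↔ c.ok 40 := by rw [Ok]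

theorem Pr_iff {α : Type} [Fintype α] (p : List α → (ℕ → ℕ) → Prop) : Pr p ↔ E2P p := by
  rw [Pr]

/-- The closure properties of E2 which are used. -/
structure Kit (α : Type) [Fintype α] : Prop where
  sub : ∀ F G : VF α, E2 F → E2 G → E2 (fun w v => F w v - G w v)
  div : ∀ F G : VF α, E2 F → E2 G → E2 (fun w v => F w v / G w v)
  md : ∀ F G : VF α, E2 F → E2 G → E2 (fun w v => F w v % G w v)
  pw : ∀ F G H : VF α, E2 F → E2 G → E2 H → E2 (fun w v => pw (F w v) (G w v) (H w v))
  dg : ∀ F G H : VF α, E2 F → E2 G → E2 H → E2 (fun w v => dg (F w v) (G w v) (H w v))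
  sdc : ∀ C F G H D : VF α, E2 C → E2 F → E2 G → E2 H → E2 D →
    E2 (fun w v => sdc (C w v) (F w v) (G w v) (H w v) (D w v))
  eqP : ∀ F G : VF α, E2 F → E2 G → Pr (fun w v => F w v = G w v)
  neP : ∀ F G : VF α, E2 F → E2 G → Pr (fun w v => F w v ≠ G w v)
  andP : ∀ p q : List α → (ℕ → ℕ) → Prop, Pr p → Pr q → Pr (fun w v => p w v ∧ q w v)
  orP : ∀ p q : List α → (ℕ → ℕ) → Prop, Pr p → Pr q → Pr (fun w v => p w v ∨ q w v)
  ite : ∀ (p : List α → (ℕ → ℕ) → Prop) (inst : ∀ w v, Decidable (p w v)) (F G : VF α),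
    Pr p → E2 F → E2 G → E2 (fun w v => @ite _ (p w v) (inst w v) (F w v) (G w v))
  add9 : ∀ F : ℕ → VF α, (∀ i, E2 (F i)) → E2 (fun w v => if F 1 w v = 0 then 0 else
      addn (F 0 w v) (F 1 w v) (F 2 w v) (F 3 w v) (F 4 w v) (F 5 w v) (F 6 w v))
  scl9 : ∀ F : ℕ → VF α, (∀ i, E2 (F i)) → E2 (fun w v => if F 1 w v = 0 then 0 else
      scln (F 0 w v) (F 1 w v) (F 2 w v) (F 3 w v) (F 4 w v) (F 5 w v))
  upd9 : ∀ F : ℕ → VF α, (∀ i, E2 (F i)) → E2 (fun w v => if F 1 w v = 0 then 0 else
      updn (F 0 w v) (F 1 w v) (F 2 w v) (F 3 w v) (F 4 w v) (F 5 w v) (F 6 w v) (F 7 w v)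
        (F 8 w v))

theorem kit (h1 : StL1) (h2 : StL2) (h4 : StL4) (h5 : StL5) (h9 : StM4) (α : Type)
    [Fintype α] : Kit α where
  sub F G hF hG := (h1 F G hF hG).1
  div F G hF hG := (h4 F G hF hG).1
  md F G hF hG := (h4 F G hF hG).2
  pw F G H hF hG hH := (h5 F G H F F hF hG hH hF hF).1
  dg F G H hF hG hH := (h5 F G H F F hF hG hH hF hF).2.1
  sdc C F G H D hC hF hG hH hD := (h5 F G H D C hF hG hH hD hC).2.2.1
  eqP F G hF hG := (Pr_iff _).2 (h2.1 F G hF hG).2.2
  neP F G hF hG := (Pr_iff _).2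
    (h2.2.1 _ _ (h2.1 F G hF hG).2.2 (h2.1 F G hF hG).2.2).1
  andP p q hp hq := (Pr_iff _).2 (h2.2.1 p q ((Pr_iff _).1 hp) ((Pr_iff _).1 hq)).2.1
  orP p q hp hq := (Pr_iff _).2 (h2.2.1 p q ((Pr_iff _).1 hp) ((Pr_iff _).1 hq)).2.2
  ite p inst F G hp hF hG := by
    have := h2.2.2 p F G ((Pr_iff _).1 hp) hF hG
    convert this
  add9 F hF := (h9 F hF).1
  scl9 F hF := (h9 F hF).2.1
  upd9 F hF := (h9 F hF).2.2

/-- Finite lists of functions as sequences. -/
def sel {α : Type} (l : List (VF α)) (i : ℕ) : VF α := l.getD i (fun _ _ => 0)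

theorem sel_E2 {α : Type} [Fintype α] {l : List (VF α)} (h : ∀ F ∈ l, E2 F) (i : ℕ) :
    E2 (sel l i) := by
  unfold sel
  rw [List.getD_eq_getElem?_getD]
  cases hi : l[i]? with
  | none => exact E2.zero
  | some F => exact h F (List.mem_of_getElem? hi)

theorem okNil {α : Type} [Fintype α] : Ok (sq ([] : List (Cmd α))) := by
  rw [Ok_iff]
  exact ⟨E2.zero, E2.get 1⟩

theorem okCons {α : Type} [Fintype α] {c : Cmd α} {cs : List (Cmd α)} (h : Ok c)
    (h' : Ok (sq cs)) : Ok (sq (c :: cs)) := by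
  rw [Ok_iff] at *
  exact ⟨h, h'⟩

theorem okAsg {α : Type} [Fintype α] {i : ℕ} {F : VF α} (hi : i < 40) (h : E2 F) :
    Ok (Cmd.asg i F) := by
  rw [Ok_iff] at *
  exact ⟨hi, h⟩

theorem okGlb {α : Type} [Fintype α] {F : VF α} (h : E2 F) : Ok (Cmd.glb F) := by
  rw [Ok_iff] at *
  exact h

theorem okRep {α : Type} [Fintype α] {n : VF α} {c : Cmd α} (h : E2 n) (h' : Ok c) :
    Ok (Cmd.rep n c) := by
  rw [Ok_iff] at *
  exact ⟨h, h'⟩

theorem okCall {α : Type} [Fintype α] {i j : ℕ} (hi : i < 40) (hj : j < 40) :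
    Ok (Cmd.call i j : Cmd α) := by
  rw [Ok_iff] at *
  exact ⟨hi, hj⟩

section
variable {α : Type} [Fintype α] (K : Kit α) (cl : List α → ℕ → ℕ) (rs : List α → ℕ → ℕ → ℕ)
  (hcl : E2 (fun (w : List α) v => cl w (v 0))) (hrs : E2 (fun (w : List α) v => rs w (v 0) (v 1)))

include hcl in
theorem clE {F : VF α} (hF : E2 F) : E2 (fun w v => cl w (F w v)) := E2.sub1 hcl hF

include hrs in
theorem rsE {F G : VF α} (hF : E2 F) (hG : E2 G) : E2 (fun w v => rs w (F w v) (G w v)) :=
  E2.sub2 hrs hF hG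

theorem loE (i : ℕ) : E2 (fun (_ : List α) v => lo i v) := E2.get _

theorem paE (i : ℕ) : E2 (fun (_ : List α) v => pa i v) := E2.get _

theorem glE : E2 (fun (_ : List α) v => gl v) := E2.get _

theorem encE {B A C D E F : VF α} (hB : E2 B) (hA : E2 A) (hC : E2 C) (hD : E2 D) (hE : E2 E)
    (hF : E2 F) : E2 (fun w v => enc5 (B w v) (A w v) (C w v) (D w v) (E w v) (F w v)) :=
  hA.add (hB.mul (hC.add (hB.mul (hD.add (hB.mul (hE.add (hB.mul hF)))))))

include K hcl hrs in
theorem walkStep_ok : Ok (walkStep cl rs) := by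
  unfold walkStep
  repeat' first
    | exact okNil
    | apply okCons
    | refine okAsg (by norm_num) ?_
    | refine okCall (by norm_num) (by norm_num)
    | exact E2.const _
    | exact loE _
    | exact paE _
    | apply K.ite
    | apply K.andP
    | apply K.orP
    | apply K.eqP
    | apply K.neP
    | apply clE cl hcl
    | apply rsE rs hrs
    | apply K.sub
    | apply E2.add

include K hcl hrs in
theorem walkP_ok : Ok (walkP cl rs) := by
  unfold walkP
  repeat' first
    | exact okNil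
    | apply okCons
    | refine okAsg (by norm_num) ?_
    | exact okRep (E2.get _) (walkStep_ok K cl rs hcl hrs)
    | exact E2.const _

include K hcl hrs in
theorem popStep_ok : Ok (popStep cl rs) := by
  unfold popStep
  repeat' first
    | exact okNil
    | exact walkP_ok K cl rs hcl hrs
    | apply okCons
    | refine okAsg (by norm_num) ?_
    | refine okCall (by norm_num) (by norm_num)
    | exact E2.const _
    | exact loE _
    | exact paE _
    | apply K.ite
    | apply K.andP
    | apply K.orP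
    | apply K.eqP
    | apply K.neP
    | apply clE cl hcl
    | apply rsE rs hrs
    | apply K.sub

include K hcl hrs in
theorem popP_ok : Ok (popP cl rs) := okRep (E2.get _) (popStep_ok K cl rs hcl hrs)

include K hcl hrs in
theorem gamP_ok : Ok (gamP cl rs) := by
  unfold gamP
  repeat' first
    | exact okNil
    | exact walkP_ok K cl rs hcl hrs
    | exact popP_ok K cl rs hcl hrs
    | apply okCons
    | refine okAsg (by norm_num) ?_
    | refine okCall (by norm_num) (by norm_num)
    | exact E2.const _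
    | exact loE _
    | exact paE _
    | apply K.ite
    | apply K.andP
    | apply K.orP
    | apply K.eqP
    | apply K.neP
    | apply encE
    | apply K.dg
    | apply K.md
    | apply K.sub
    | apply E2.add
    | apply E2.mul

include K hcl hrs in
theorem stepB_ok : Ok (stepB cl rs) := by
  unfold stepB
  refine okCons (gamP_ok K cl rs hcl hrs) (okCons (okGlb ?_) (okCons (okAsg (by norm_num)
    ((loE 19).add (E2.const 1))) (okNil)))
  have h1 := K.upd9 (sel [fun _ v => pa 1 v, fun _ v => pa 6 v, fun _ v => pa 4 v,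
    fun _ v => gl v, fun _ v => lo 16 v, fun _ v => lo 17 v, fun _ v => lo 18 v,
    fun _ v => lo 19 v, fun _ v => lo 20 v]) (sel_E2 (by
      intro F hF
      simp only [List.mem_cons, List.not_mem_nil, or_false] at hF
      rcases hF with rfl | rfl | rfl | rfl | rfl | rfl | rfl | rfl | rfl
      all_goals exact E2.get _))
  have h2 : E2 (fun (w : List α) v => if pa 6 v = 0 then 0 else gl v) :=
    K.ite _ _ _ _ (K.eqP _ _ (paE 6) (E2.const 0)) (E2.const 0) glE
  have h3 := K.ite (fun _ v => lo 14 v = 3) (fun _ _ => inferInstance) _ _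
    (K.eqP _ _ (loE 14) (E2.const 3)) h1 h2
  refine (congrArg E2 ?_).mp h3
  funext w v
  show (if lo 14 v = 3 then (if pa 6 v = 0 then 0 else updn (pa 1 v) (pa 6 v) (pa 4 v) (gl v)
    (lo 16 v) (lo 17 v) (lo 18 v) (lo 19 v) (lo 20 v)) else (if pa 6 v = 0 then 0 else gl v)) = _
  split_ifs <;> rfl

include K hcl hrs in
theorem opP_ok : Ok (opP cl rs) := by
  unfold opP
  refine okCons (okAsg (by norm_num) (E2.const 0)) (okCons (okRep (E2.get _) ?_) (okNil))
  unfold stepA
  exact okCons (okAsg (by norm_num) (E2.const 0)) (okCons (okRep (E2.get _)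
    (stepB_ok K cl rs hcl hrs)) (okCons (okAsg (by norm_num) ((loE 18).add (E2.const 1)))
    (okNil)))

include K hcl hrs in
theorem stepY_ok (h9 : StM5) : Ok (stepY cl rs) := by
  unfold stepY
  have hF : ∀ i, E2 (sel (α := α) [fun _ v => pa 10 v, fun _ v => pa 8 v, fun _ v => pa 12 v,
      fun _ v => lo 6 v, fun _ v => pa 9 v, fun _ v => lo 4 v + 1, fun _ _ => 0,
      fun _ v => lo 35 v, fun _ v => lo 13 v] i) := sel_E2 (by
    intro F hF
    simp only [List.mem_cons, List.not_mem_nil, or_false] at hF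
    rcases hF with rfl | rfl | rfl | rfl | rfl | rfl | rfl | rfl | rfl
    · exact E2.get _
    · exact E2.get _
    · exact E2.get _
    · exact E2.get _
    · exact E2.get _
    · exact (loE 4).add (E2.const 1)
    · exact E2.zero
    · exact E2.get _
    · exact E2.get _)
  have hd := h9.1 _ hF
  refine okCons (okAsg (by norm_num) hd.1) (okCons (okAsg (by norm_num) hd.2.1)
    (okCons (okAsg (by norm_num) hd.2.2.1) (okCons (okAsg (by norm_num) hd.2.2.2)
    (okCons (okGlb ?_) (okCons (opP_ok K cl rs hcl hrs) (okCons (okAsg (by norm_num)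
    ((loE 13).add (E2.const 1))) (okNil)))))))
  have h1 := K.add9 (sel [fun _ v => pa 1 v, fun _ v => pa 6 v, fun _ v => pa 4 v,
    fun _ v => gl v, fun _ v => lo 16 v, fun _ v => lo 17 v, fun _ v => lo 3 v]) (sel_E2 (by
      intro F hF
      simp only [List.mem_cons, List.not_mem_nil, or_false] at hF
      rcases hF with rfl | rfl | rfl | rfl | rfl | rfl | rfl
      all_goals exact E2.get _))
  have h2 := K.scl9 (sel [fun _ v => pa 1 v, fun _ v => pa 6 v, fun _ v => pa 4 v,
    fun _ v => pa 7 v, fun _ v => gl v, fun _ v => lo 16 v]) (sel_E2 (by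
      intro F hF
      simp only [List.mem_cons, List.not_mem_nil, or_false] at hF
      rcases hF with rfl | rfl | rfl | rfl | rfl | rfl
      all_goals exact E2.get _))
  have h3 : E2 (fun (w : List α) v => if pa 6 v = 0 then 0 else gl v) :=
    K.ite _ _ _ _ (K.eqP _ _ (paE 6) (E2.const 0)) (E2.const 0) glE
  have h4 := K.ite (fun _ v => lo 14 v = 2) (fun _ _ => inferInstance) _ _
    (K.eqP _ _ (loE 14) (E2.const 2)) h2 h3
  have h5 := K.ite (fun _ v => lo 14 v = 1) (fun _ _ => inferInstance) _ _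
    (K.eqP _ _ (loE 14) (E2.const 1)) h1 h4
  refine (congrArg E2 ?_).mp h5
  funext w v
  show (if lo 14 v = 1 then (if pa 6 v = 0 then 0 else addn (pa 1 v) (pa 6 v) (pa 4 v) (gl v)
    (lo 16 v) (lo 17 v) (lo 3 v)) else (if lo 14 v = 2 then (if pa 6 v = 0 then 0 else
      scln (pa 1 v) (pa 6 v) (pa 4 v) (pa 7 v) (gl v) (lo 16 v)) else
      (if pa 6 v = 0 then 0 else gl v))) = _
  split_ifs <;> rfl

include K hcl hrs in
theorem prunP_ok (h9 : StM5) : Ok (prunP cl rs) :=
  okCons (okAsg (by norm_num) (E2.const 0)) (okCons (okRep (E2.get _)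
    (stepY_ok K cl rs hcl hrs h9)) (okNil))

include K hcl hrs in
theorem bitP_ok (h9 : StM5) : Ok (bitP cl rs) := by
  unfold bitP
  repeat' first
    | exact okNil
    | exact prunP_ok K cl rs hcl hrs h9
    | apply okCons
    | refine okAsg (by norm_num) ?_
    | exact E2.const _
    | exact loE _
    | exact paE _
    | exact glE
    | apply K.dg
    | apply K.pw
    | apply K.md
    | apply K.sub
    | apply E2.add
    | apply E2.mul

include K hcl hrs in
theorem outP_ok (h9 : StM5) : Ok (outP cl rs) :=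
  okCons (okAsg (by norm_num) (E2.const 0)) (okCons (okAsg (by norm_num) (E2.const 0))
    (okCons (okRep (E2.get _) (bitP_ok K cl rs hcl hrs h9)) (okNil)))

include K hcl hrs in
theorem hstP_ok (h9 : StM5) : Ok (hstP cl rs) := by
  unfold hstP
  repeat' first
    | exact okNil
    | exact outP_ok K cl rs hcl hrs h9
    | apply okCons
    | refine okAsg (by norm_num) ?_
    | exact E2.const _
    | exact loE _
    | exact paE _
    | exact glE
    | apply K.ite
    | apply K.andP
    | apply K.orP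
    | apply K.eqP
    | apply K.neP
    | apply K.sdc
    | apply K.dg
    | apply K.pw
    | apply K.md
    | apply K.div
    | apply K.sub
    | apply E2.add
    | apply E2.mul

include K hcl hrs in
theorem body_ok (h9 : StM5) : Ok (body cl rs) := by
  unfold body
  repeat' first
    | exact okNil
    | exact walkP_ok K cl rs hcl hrs
    | exact okRep (E2.get _) (hstP_ok K cl rs hcl hrs h9)
    | apply okCons
    | refine okAsg (by norm_num) ?_
    | refine okCall (by norm_num) (by norm_num)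
    | exact E2.const _
    | exact loE _
    | exact paE _
    | apply K.ite
    | apply K.eqP
    | apply K.neP
    | apply encE

end

theorem rleCons {α : Type} {w : List α} {p : ℕ → ℕ} {X : ℕ} {c : Cmd α} {cs : List (Cmd α)}
    (h : c.rle w p X) (h' : (sq cs).rle w p X) : (sq (c :: cs)).rle w p X := ⟨h, h'⟩

theorem body_rle {α : Type} (cl : List α → ℕ → ℕ) (rs : List α → ℕ → ℕ → ℕ) (w : List α)
    (p : ℕ → ℕ) (X : ℕ) (h3 : p 3 ≤ X) (h4 : p 4 ≤ X) (h5 : p 5 ≤ X) (h10 : p 10 ≤ X)
    (h11 : p 11 ≤ X) : (body cl rs).rle w p X := by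
  simp only [body, hstP, outP, bitP, prunP, stepY, opP, stepA, stepB, gamP, popP, popStep, walkP,
    walkStep, Pool.Agent.Helper73.DC.sq, Cmd.rle, true_and, and_true, Nat.zero_le, h3, h4, h5, h10, h11]

theorem mP0 : StL1 → StL2 → StL3 → StL4 → StL5 → StL6 → StM4 → StM5 → StP0 := by
  intro h1 h2 _ h4 h5 _ h8 h9 α _
  have K := kit h1 h2 h4 h5 h8 α
  refine ⟨sz (body (fun (_ : List α) _ => 0) (fun (_ : List α) _ _ => 0)),
    dpt (body (fun (_ : List α) _ => 0) (fun (_ : List α) _ _ => 0)), ?_⟩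
  intro cl rs hcl hrs
  refine ⟨(Ok_iff _).1 (body_ok K cl rs hcl hrs h9), rfl, rfl, ?_⟩
  intro w p X a3 a4 a5 a10 a11
  exact body_rle cl rs w p X a3 a4 a5 a10 a11

end Pool.Agent.Helper38.DC
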